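import Pool.Agent.helper16.EXT.Spec3T

set_option autoImplicit false

open Finset

namespace Pool.Agent.EXT

open Pool.Agent.EXC
open scoped Matrix

theorem IW2_xe_add {F : Type} [Field F] (a : Lm C6 F) (t : F) (v w : Lm C6 F) :
    xe C6 a t (v + w) = xe C6 a t v + xe C6 a t w := by
  unfold xe
  rw [br_add_right, fm_add_right, smul_add, mul_add, add_smul]
  abel

theorem IW2_xe_smul {F : Type} [Field F] (a : Lm C6 F) (t c : F) (v : Lm C6 F) :
    xe C6 a t (c • v) = c • xe C6 a t v := by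
  unfold xe
  rw [br_smul_right, fm_smul_right]
  module

theorem IW2 (hRTF : RTF_stmt) (hESF : ESF_stmt) (hSIG : SIG_stmt) (hSGR : SGR_stmt) : IW2_stmt := by
  intro K _ τ hτ a b hT κ hκ h hh l hl
  obtain ⟨k, hk, β, hβ, hθβ, c, c', hcf, hcf', hc, hc', hka, hkb⟩ := hT
  obtain ⟨-, -, pvadd, pvneg, pvsr, -, -, -, -, -, -, -, -, hLth, hth⟩ := hRTF
  have hthth : ip C6 th th = 2 := hLth.1
  have hβ2 : β = -th := eq_neg_of_ip_eq_neg_two hthth hβ.1 hθβ
  subst hβ2
  have h1th : ip C6 th (sr 1) = 1 := by rw [hth]; simp [sr]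
  have hsr : ip C6 (sr 1) (sr 1) = 2 := ip_sr_self C6 1
  have h1th' : ip C6 (sr 1) th = 1 := by rw [ip_comm, h1th]
  have hf2 : ip C6 (-sr 1) (-sr 1) = 2 := neg_root C6 hsr
  have he2 : ip C6 (th - sr 1) (th - sr 1) = 2 := (sub_root_iff hthth hsr).2 h1th
  have hn2 : ip C6 (-th) (-th) = 2 := neg_root C6 hthth
  have hpsr : pv (sr 1) = sr 1 := by rw [pvsr]; rfl
  have hLf : LR (-sr 1) := ⟨hf2, by rw [pvneg, hpsr]⟩
  have hLe : LR (th - sr 1) := ⟨he2, by rw [sub_eq_add_neg, pvadd, hLf.2, hLth.2]⟩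
  obtain ⟨hEx, hX⟩ := hESF K τ hτ
  have hsf := (hX _ (hEx _ hLf)).2.2.1
  have hse := (hX _ (hEx _ hLe)).2.2.1
  obtain ⟨siadd, sismul, -, -, -, -, -, -⟩ := hSIG K τ hτ
  obtain ⟨-, -, -, -, -, hGS⟩ := hSGR K τ hτ
  obtain ⟨hkGE, hkAu, hksi⟩ := hGS k hk
  have hkinv : ∀ v : Lm C6 K, k⁻¹ (k v) = v := fun v => by
    rw [← LinearEquiv.mul_apply, inv_mul_cancel]
    rfl
  have hkinv' : ∀ v : Lm C6 K, k (k⁻¹ v) = v := fun v => by
    rw [← LinearEquiv.mul_apply, mul_inv_cancel]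
    rfl
  have hkisi := (hGS k⁻¹ (inv_mem hk)).2.2
  -- extremal
  have hne : ∀ α, ip C6 α α = 2 → ∃ β, ip C6 β β = 2 ∧ ip C6 α β = -1 := (f_NBR 6 C6 1 th ![0, 2, 3, 4, 5] f_DE6.2).1
  obtain ⟨-, hExE, hXE, -⟩ := f_EXF 6 C6 K hne
  have hXa : Xtr C6 a := by
    have : Ex C6 a := by
      refine ⟨k⁻¹, inv_mem hkGE, th, hthth, c, hc, ?_⟩
      rw [← map_smul, ← hka, hkinv]
    exact (hXE a this).1
  have hXb : Xtr C6 b := by
    have : Ex C6 b := by
      refine ⟨k⁻¹, inv_mem hkGE, -th, hn2, c', hc', ?_⟩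
      rw [← map_smul, ← hkb, hkinv]
    exact (hXE b this).1
  have hfm : fm C6 a b = c * c' := by
    rw [← hkAu.fm, hka, hkb, fm_smul_left, fm_smul_right, fm_E_E C6 hthth hn2, if_pos (by abel), mul_one]
  -- signs
  set s : ℤ := sg C6 th (-sr 1) with hs
  set s' : ℤ := sg C6 (-th) (th - sr 1) with hs'
  have hss : s * s' = -1 := by
    rw [hs, hs', sg_neg_right, sg_neg_left, sg_sub_right, sg_self C6 hthth]
    have := sg_mul_self C6 th (sr 1)
    linear_combination (-1 : ℤ) * this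
  have hs0 : s ≠ 0 := by rintro h; rw [h] at hss; simp at hss
  -- actions
  have A1 := f_ACT 6 C6 K th
  have A2 := f_ACT 6 C6 K (-th)
  have a1 : ∀ u : K, xe C6 (E C6 th) u (E C6 (th - sr 1)) = (E C6 (th - sr 1) : Lm C6 K) := fun u => by
    refine (A1 u hthth).1 _ he2 ?_
    rw [ip_sub_right, hthth, h1th]; norm_num
  have a2 : ∀ u : K, xe C6 (E C6 th) u (E C6 (-sr 1)) = (E C6 (-sr 1) + (u * (s : K)) • E C6 (th - sr 1) : Lm C6 K) := fun u => by
    have := (A1 u hthth).2.1 (-sr 1) hf2 (by rw [ip_neg_right, h1th])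
    rw [← sub_eq_add_neg] at this
    exact this
  have a3 : ∀ u : K, xe C6 (E C6 (-th)) u (E C6 (-sr 1)) = (E C6 (-sr 1) : Lm C6 K) := fun u => by
    refine (A2 u hn2).1 _ hf2 ?_
    rw [ip_neg_right, ip_neg_left, h1th]; norm_num
  have a4 : ∀ u : K, xe C6 (E C6 (-th)) u (E C6 (th - sr 1)) = (E C6 (th - sr 1) + (u * (s' : K)) • E C6 (-sr 1) : Lm C6 K) := fun u => by
    have := (A2 u hn2).2.1 (th - sr 1) he2 (by rw [ip_sub_right, ip_neg_left, ip_neg_left, hthth, h1th]; norm_num)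
    have e : -th + (th - sr 1) = -sr 1 := by abel
    rw [e] at this
    exact this
  -- the vectors
  have hv : ∀ x : Fin 2 → K0 τ, k⁻¹ ((x 0 : K) • E C6 (th - sr 1) + (x 1 : K) • E C6 (-sr 1)) ∈ LT τ := fun x => by
    show si τ _ = _
    rw [hkisi, siadd, sismul, sismul, hse, hsf, K0_fix, K0_fix]
  let v : (Fin 2 → K0 τ) → LT τ := fun x => ⟨k⁻¹ ((x 0 : K) • E C6 (th - sr 1) + (x 1 : K) • E C6 (-sr 1)), hv x⟩
  have hvi : Function.Injective v := by
    intro x y hxy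
    have h1 : k⁻¹ ((x 0 : K) • E C6 (th - sr 1) + (x 1 : K) • E C6 (-sr 1)) =
        (k⁻¹ ((y 0 : K) • E C6 (th - sr 1) + (y 1 : K) • E C6 (-sr 1)) : Lm C6 K) := congrArg Subtype.val hxy
    have h2 := (k⁻¹).injective h1
    have hthne : th ≠ 0 := by intro h0; rw [h0] at hthth; simp at hthth
    have n1 : th - sr 1 ≠ -sr 1 := fun h0 => hthne (by
      have : th - sr 1 + sr 1 = -sr 1 + sr 1 := by rw [h0]
      rwa [sub_add_cancel, neg_add_cancel] at this)
    have e1 := congrArg (fun w : Lm C6 K => cf w (th - sr 1)) h2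
    have e2 := congrArg (fun w : Lm C6 K => cf w (-sr 1)) h2
    simp only [cf_add, cf_smul, cf_E C6 he2, cf_E C6 hf2, if_neg n1, if_neg n1.symm, if_true, mul_one, mul_zero,
      add_zero, zero_add] at e1 e2
    ext i
    fin_cases i
    · exact e1
    · exact e2
  let c₀ : K0 τ := ⟨c, K0_mem τ hcf⟩
  let c₁ : K0 τ := ⟨c', K0_mem τ hcf'⟩
  have hc₀ : (c₀ : K) = c := rfl
  have hc₁ : (c₁ : K) = c' := rfl
  let N : Bool × K0 τ → Matrix (Fin 2) (Fin 2) (K0 τ) := fun p =>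
    if p.1 then !![1, 0; c₁ * p.2 * (s' : K0 τ), 1] else !![1, c₀ * p.2 * (s : K0 τ); 0, 1]
  have hN : ∀ p x, ((h p : GF τ) : Equiv.Perm (LT τ)) (v x) = v (N p *ᵥ x) := by
    rintro ⟨q, u⟩ x
    have h1 := hh (q, u)
    refine Subtype.ext ?_
    rw [← hkinv (((h (q, u) : GF τ) : Equiv.Perm (LT τ)) (v x) : Lm C6 K)]
    show _ = k⁻¹ _
    congr 1
    cases q with
    | false =>
      have h1' : IsF τ a (u : K) ((h (false, u) : GF τ) : Equiv.Perm (LT τ)) := h1
      rw [h1' (v x), ((f_XAU 6 C6 K a hXa).2.2.1 k hkAu).2, hka, ((f_XAU 6 C6 K _ (hXE _ (hExE _ hthth)).1).2.2.2 c).2]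
      show xe C6 (E C6 th) (c * (u : K)) (k (k⁻¹ _)) = _
      rw [hkinv', IW2_xe_add, IW2_xe_smul, IW2_xe_smul, a1, a2]
      have e0 : ((N (false, u) *ᵥ x) 0 : K) = (x 0 : K) + c * (u : K) * (s : K) * (x 1 : K) := by
        simp [N, Matrix.mulVec, dotProduct, Fin.sum_univ_two, hc₀]
      have e1 : ((N (false, u) *ᵥ x) 1 : K) = (x 1 : K) := by
        simp [N, Matrix.mulVec, dotProduct, Fin.sum_univ_two]
      rw [e0, e1]
      module
    | true =>
      have h1' : IsF τ b (u : K) ((h (true, u) : GF τ) : Equiv.Perm (LT τ)) := h1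
      rw [h1' (v x), ((f_XAU 6 C6 K b hXb).2.2.1 k hkAu).2, hkb, ((f_XAU 6 C6 K _ (hXE _ (hExE _ hn2)).1).2.2.2 c').2]
      show xe C6 (E C6 (-th)) (c' * (u : K)) (k (k⁻¹ _)) = _
      rw [hkinv', IW2_xe_add, IW2_xe_smul, IW2_xe_smul, a3, a4]
      have e0 : ((N (true, u) *ᵥ x) 0 : K) = (x 0 : K) := by
        simp [N, Matrix.mulVec, dotProduct, Fin.sum_univ_two]
      have e1 : ((N (true, u) *ᵥ x) 1 : K) = c' * (u : K) * (s' : K) * (x 0 : K) + (x 1 : K) := by
        simp [N, Matrix.mulVec, dotProduct, Fin.sum_univ_two, hc₁]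
      rw [e0, e1]
      module
  -- the product
  have hprod : ∀ (l : List (Bool × K0 τ)) x, (((l.map h).prod : GF τ) : Equiv.Perm (LT τ)) (v x) = v ((l.map N).prod *ᵥ x) := by
    intro l
    induction l with
    | nil => intro x; simp
    | cons p l ih =>
      intro x
      rw [List.map_cons, List.prod_cons, List.map_cons, List.prod_cons, Subgroup.coe_mul, Equiv.Perm.mul_apply, ih, hN,
        Matrix.mulVec_mulVec]
  have hNl : (l.map N).prod = 1 := by
    have h1 : ∀ x, (l.map N).prod *ᵥ x = x := fun x => by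
      apply hvi
      rw [← hprod l x, hl]
      rfl
    refine Matrix.ext_of_mulVec_single fun i => ?_
    rw [h1, Matrix.one_mulVec]
  -- conjugation by the diagonal matrix
  have hκ' : κ = c₀ * c₁ := by
    refine Subtype.ext ?_
    rw [hκ, hfm]
    rfl
  have hssK : (s : K0 τ) * (s' : K0 τ) = -1 := by
    rw [← Int.cast_mul, hss]; simp
  have hD : ∀ l : List (Bool × K0 τ), (l.map N).prod * !![-(c₀ * (s : K0 τ)), 0; 0, 1] = !![-(c₀ * (s : K0 τ)), 0; 0, 1] *
      (l.map fun p => if p.1 then !![1, 0; κ * p.2, 1] else !![1, -p.2; 0, 1]).prod := by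
    intro l
    induction l with
    | nil => simp
    | cons p l ih =>
      rw [List.map_cons, List.prod_cons, List.map_cons, List.prod_cons, mul_assoc, ih, ← mul_assoc, ← mul_assoc]
      congr 1
      obtain ⟨q, u⟩ := p
      cases q with
      | false =>
        simp only [N, Bool.false_eq_true, if_false]
        ext i j
        fin_cases i <;> fin_cases j <;> simp [Matrix.mul_apply, Fin.sum_univ_two] <;> ring
      | true =>
        simp only [N, if_true, hκ']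
        ext i j
        fin_cases i <;> fin_cases j <;> simp [Matrix.mul_apply, Fin.sum_univ_two]
        have h8 : -(c₁ * u * (s' : K0 τ) * (c₀ * (s : K0 τ))) = c₀ * c₁ * u := by
          have h9 : -(c₁ * u * (s' : K0 τ) * (c₀ * (s : K0 τ))) = -(c₀ * c₁ * u) * ((s : K0 τ) * (s' : K0 τ)) := by ring
          rw [h9, hssK]
          ring
        have h10 : ((-(c₁ * u * (s' : K0 τ) * (c₀ * (s : K0 τ))) : K0 τ) : K) = ((c₀ * c₁ * u : K0 τ) : K) := by rw [h8]
        simpa using h10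
  have h5 := hD l
  rw [hNl, one_mul] at h5
  have hd0 : -(c₀ * (s : K0 τ)) ≠ 0 := by
    have h1 : c₀ ≠ 0 := fun h0 => hc (by rw [← hc₀, h0]; rfl)
    have h2 : (s : K0 τ) ≠ 0 := by
      intro h0
      rw [h0, zero_mul] at hssK
      have h7 : (1 : K0 τ) = 0 := by linear_combination hssK
      exact one_ne_zero h7
    exact neg_ne_zero.2 (mul_ne_zero h1 h2)
  have h6 : (!![(-(c₀ * (s : K0 τ)))⁻¹, 0; 0, 1] : Matrix (Fin 2) (Fin 2) (K0 τ)) * !![-(c₀ * (s : K0 τ)), 0; 0, 1] = 1 := by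
    generalize -(c₀ * (s : K0 τ)) = d at hd0
    ext i j
    fin_cases i <;> fin_cases j <;> simp [Matrix.mul_apply, Fin.sum_univ_two, hd0]
  rw [← one_mul (List.map _ l).prod, ← h6, mul_assoc, ← h5, h6]

end Pool.Agent.EXT
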